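import Mathlib

/-!
A straight-line graph without crossings, on points with distinct first coordinates, has at most
`4 n` edges.
-/

namespace Pool.Agent.H69.ST

abbrev Pt := ℝ × ℝ

/-- slope of the segment `e` -/
noncomputable def slope (e : Pt × Pt) : ℝ := (e.2.2 - e.1.2) / (e.2.1 - e.1.1)

/-- height of the line through the segment `e` above `x` -/
noncomputable def ht (e : Pt × Pt) (x : ℝ) : ℝ := e.1.2 + (x - e.1.1) * slope e

lemma ht_left (e : Pt × Pt) : ht e e.1.1 = e.1.2 := by simp [ht]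

lemma ht_right {e : Pt × Pt} (h : e.1.1 < e.2.1) : ht e e.2.1 = e.2.2 := by
  have : e.2.1 - e.1.1 ≠ 0 := by linarith
  simp only [ht, slope]
  field_simp
  ring

/-- The segments `e` and `f` meet in a point whose first coordinate is interior to both. -/
def Cross (e f : Pt × Pt) : Prop :=
  ∃ x, e.1.1 < x ∧ f.1.1 < x ∧ x < e.2.1 ∧ x < f.2.1 ∧ ht e x = ht f x

lemma Cross.symm {e f : Pt × Pt} (h : Cross e f) : Cross f e := by
  obtain ⟨x, h1, h2, h3, h4, h5⟩ := h
  exact ⟨x, h2, h1, h4, h3, h5.symm⟩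

/-- straight-line graphs -/
structure SLG (V : Finset Pt) (G : Finset (Pt × Pt)) : Prop where
  inj : ∀ p ∈ V, ∀ q ∈ V, p.1 = q.1 → p = q
  left : ∀ e ∈ G, e.1 ∈ V
  right : ∀ e ∈ G, e.2 ∈ V
  lt : ∀ e ∈ G, e.1.1 < e.2.1
  vert : ∀ e ∈ G, ∀ p ∈ V, e.1.1 < p.1 → p.1 < e.2.1 → p.2 ≠ ht e p.1

/-- if `e` is above `f` at `s` and below at `t` then they cross -/
lemma cross_of_sign {e f : Pt × Pt} {s t : ℝ} (hst : s < t) (he1 : e.1.1 ≤ s) (hf1 : f.1.1 ≤ s)
    (he2 : t ≤ e.2.1) (hf2 : t ≤ f.2.1) (hs : ht f s < ht e s) (htt : ht e t < ht f t) :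
    Cross e f := by
  set a := ht e s - ht f s with ha
  set b := ht f t - ht e t with hb
  have ha0 : 0 < a := by linarith
  have hb0 : 0 < b := by linarith
  have hab : 0 < a + b := by linarith
  refine ⟨s + (t - s) * (a / (a + b)), ?_, ?_, ?_, ?_, ?_⟩
  · have : 0 < (t - s) * (a / (a + b)) := mul_pos (by linarith) (div_pos ha0 hab)
    linarith
  · have : 0 < (t - s) * (a / (a + b)) := mul_pos (by linarith) (div_pos ha0 hab)
    linarith
  · have h1 : a / (a + b) < 1 := by rw [div_lt_one hab]; linarith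
    have : (t - s) * (a / (a + b)) < (t - s) * 1 := mul_lt_mul_of_pos_left h1 (by linarith)
    linarith
  · have h1 : a / (a + b) < 1 := by rw [div_lt_one hab]; linarith
    have : (t - s) * (a / (a + b)) < (t - s) * 1 := mul_lt_mul_of_pos_left h1 (by linarith)
    linarith
  · have e1 : ∀ g : Pt × Pt, ∀ c, ht g (s + (t - s) * c) = (1 - c) * ht g s + c * ht g t := by
      intro g c
      simp only [ht]
      ring
    rw [e1, e1]
    have h2 : ht e s = ht f s + a := by rw [ha]; ring
    have h3 : ht f t = ht e t + b := by rw [hb]; ring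
    rw [h2, h3]
    field_simp
    ring

/-- The data attached to a non-lowest edge `e`: the next lower edge `f` at the same left
endpoint, and the first vertex `p` in the wedge. -/
structure Dat (V : Finset Pt) (G : Finset (Pt × Pt)) (e f : Pt × Pt) (p : Pt) : Prop where
  fG : f ∈ G
  f1 : f.1 = e.1
  sl : slope f < slope e
  mx : ∀ g ∈ G, g.1 = e.1 → slope g < slope e → slope g ≤ slope f
  pV : p ∈ V
  p0 : e.1.1 < p.1
  pe : p.1 ≤ e.2.1
  pf : p.1 ≤ f.2.1
  lo : ht f p.1 ≤ p.2
  up : p.2 ≤ ht e p.1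
  mn : ∀ q ∈ V, e.1.1 < q.1 → q.1 < p.1 → ¬ (ht f q.1 ≤ q.2 ∧ q.2 ≤ ht e q.1)

lemma exists_dat {V : Finset Pt} {G : Finset (Pt × Pt)} (h : SLG V G) {e : Pt × Pt} (he : e ∈ G)
    (hne : ∃ g ∈ G, g.1 = e.1 ∧ slope g < slope e) : ∃ f p, Dat V G e f p := by
  classical
  obtain ⟨g, hg, hg1, hgs⟩ := hne
  obtain ⟨f, hf, hfmax⟩ := Finset.exists_max_image (G.filter fun g => g.1 = e.1 ∧ slope g < slope e)
    slope ⟨g, by simp [hg, hg1, hgs]⟩
  rw [Finset.mem_filter] at hf
  obtain ⟨hfG, hf1, hfs⟩ := hf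
  have hlt := h.lt e he
  have hltf := h.lt f hfG
  set W := V.filter fun p => e.1.1 < p.1 ∧ p.1 ≤ e.2.1 ∧ p.1 ≤ f.2.1 ∧ ht f p.1 ≤ p.2 ∧
    p.2 ≤ ht e p.1 with hW
  have hWne : W.Nonempty := by
    rcases le_total e.2.1 f.2.1 with hle | hle
    · refine ⟨e.2, ?_⟩
      rw [hW, Finset.mem_filter]
      refine ⟨h.right e he, hlt, le_rfl, hle, ?_, ?_⟩
      · rw [← ht_right hlt]
        simp only [ht, hf1]
        have : 0 < e.2.1 - e.1.1 := by linarith
        nlinarith
      · rw [ht_right hlt]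
    · refine ⟨f.2, ?_⟩
      rw [hW, Finset.mem_filter]
      have hf1' : f.1.1 = e.1.1 := by rw [hf1]
      refine ⟨h.right f hfG, by linarith, hle, le_rfl, ?_, ?_⟩
      · rw [ht_right hltf]
      · rw [← ht_right hltf]
        simp only [ht, hf1]
        have : 0 < f.2.1 - e.1.1 := by linarith
        nlinarith
  obtain ⟨p, hp, hpmin⟩ := Finset.exists_min_image W (fun p => p.1) hWne
  rw [hW, Finset.mem_filter] at hp
  obtain ⟨hpV, hp0, hpe, hpf, hlo, hup⟩ := hp
  refine ⟨f, p, ⟨hfG, hf1, hfs, ?_, hpV, hp0, hpe, hpf, hlo, hup, ?_⟩⟩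
  · intro g hg hg1 hgs
    exact hfmax g (by simp [hg, hg1, hgs])
  · rintro q hq hq0 hqp ⟨hq1, hq2⟩
    have : q ∈ W := by
      rw [hW, Finset.mem_filter]
      exact ⟨hq, hq0, by linarith, by linarith, hq1, hq2⟩
    have := hpmin q this
    linarith

lemma Dat.ht_lt {V : Finset Pt} {G : Finset (Pt × Pt)} {e f : Pt × Pt} {p : Pt}
    (d : Dat V G e f p) : ht f p.1 < ht e p.1 := by
  simp only [ht, d.f1]
  have := d.p0
  have := d.sl
  nlinarith

/-- two edges with the same left endpoint and the same slope cross or coincide -/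
lemma cross_of_slope_eq {V : Finset Pt} {G : Finset (Pt × Pt)} (h : SLG V G) {e f : Pt × Pt}
    (he : e ∈ G) (hf : f ∈ G) (h1 : e.1 = f.1) (hs : slope e = slope f) : Cross e f := by
  have hlt := h.lt e he
  have hltf := h.lt f hf
  set m := min e.2.1 f.2.1 with hm
  have hm1 : e.1.1 < m := lt_min hlt (by rw [h1]; exact hltf)
  have hm2 := min_le_left e.2.1 f.2.1
  have hm3 := min_le_right e.2.1 f.2.1
  refine ⟨(e.1.1 + m) / 2, by linarith, by rw [← h1]; linarith, by linarith, by linarith, ?_⟩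
  simp only [ht, h1, hs]

lemma dat_unique {V : Finset Pt} {G : Finset (Pt × Pt)} (h : SLG V G)
    (hnc : ∀ e ∈ G, ∀ f ∈ G, e ≠ f → ¬ Cross e f) {e₁ f₁ e₂ f₂ : Pt × Pt} {p : Pt}
    (he₁ : e₁ ∈ G) (he₂ : e₂ ∈ G) (d₁ : Dat V G e₁ f₁ p) (d₂ : Dat V G e₂ f₂ p)
    (hle : e₁.1.1 ≤ e₂.1.1)
    (ht1 : p.2 = ht e₁ p.1 ↔ p.2 = ht e₂ p.1) (ht2 : p.2 = ht f₁ p.1 ↔ p.2 = ht f₂ p.1) :
    e₁ = e₂ := by
  by_contra hne
  have hlt1 := d₁.ht_lt
  have hlt2 := d₂.ht_lt
  rcases hle.eq_or_lt with heq | hlt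
  · have hv : e₁.1 = e₂.1 := h.inj _ (h.left _ he₁) _ (h.left _ he₂) heq
    rcases lt_trichotomy (slope e₁) (slope e₂) with hs | hs | hs
    · -- e₁ below e₂
      have h3 := d₂.mx e₁ he₁ hv hs
      have h4 : ht e₁ p.1 ≤ ht f₂ p.1 := by
        simp only [ht, d₂.f1, hv]
        have := d₂.p0
        nlinarith
      have h5 : p.2 = ht e₁ p.1 := le_antisymm d₁.up (h4.trans d₂.lo)
      have h6 := ht1.1 h5
      have := d₂.lo
      linarith
    · exact hnc e₁ he₁ e₂ he₂ hne (cross_of_slope_eq h he₁ he₂ hv hs)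
    · have h3 := d₁.mx e₂ he₂ hv.symm hs
      have h4 : ht e₂ p.1 ≤ ht f₁ p.1 := by
        simp only [ht, d₁.f1, hv]
        have := d₂.p0
        nlinarith
      have h5 : p.2 = ht e₂ p.1 := le_antisymm d₂.up (h4.trans d₁.lo)
      have h6 := ht1.2 h5
      have := d₁.lo
      linarith
  · -- the left endpoint of e₂ is a vertex in the x-range of the first wedge
    have hmn := d₁.mn e₂.1 (h.left _ he₂) hlt d₂.p0
    rw [not_and_or, not_le, not_le] at hmn
    rcases hmn with hb | ha
    · -- below f₁ : compare e₂ with f₁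
      have h1 : ht e₂ e₂.1.1 < ht f₁ e₂.1.1 := by rw [ht_left]; exact hb
      have h2 : ht f₁ p.1 ≤ ht e₂ p.1 := d₁.lo.trans d₂.up
      have hf11 : f₁.1.1 = e₁.1.1 := by rw [d₁.f1]
      rcases h2.eq_or_lt with h3 | h3
      · have h4 : p.2 = ht f₁ p.1 := le_antisymm (by rw [h3]; exact d₂.up) d₁.lo
        have h5 := ht2.1 h4
        rw [h3] at h4
        linarith
      · have hc : Cross f₁ e₂ := cross_of_sign d₂.p0 (by linarith) le_rfl d₁.pf d₂.pe h1 h3
        refine hnc f₁ d₁.fG e₂ he₂ ?_ hc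
        rintro rfl
        linarith
    · -- above e₁ : compare f₂ with e₁
      have hf21 : f₂.1 = e₂.1 := d₂.f1
      have h1 : ht e₁ e₂.1.1 < ht f₂ e₂.1.1 := by
        rw [← hf21, ht_left, hf21]; exact ha
      have h2 : ht f₂ p.1 ≤ ht e₁ p.1 := d₂.lo.trans d₁.up
      rcases h2.eq_or_lt with h3 | h3
      · have h4 : p.2 = ht e₁ p.1 := le_antisymm d₁.up (by rw [← h3]; exact d₂.lo)
        have h5 := ht1.1 h4
        rw [← h3] at h4
        linarith
      · have hc : Cross f₂ e₁ :=
          cross_of_sign d₂.p0 (by rw [hf21]) (by linarith) d₂.pf d₁.pe h1 h3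
        refine hnc f₂ d₂.fG e₁ he₁ ?_ hc
        rintro rfl
        rw [hf21] at hlt
        exact lt_irrefl _ hlt

/-- A straight-line graph without crossings has at most `4 n` edges. -/
theorem card_le_of_noncrossing {V : Finset Pt} {G : Finset (Pt × Pt)} (h : SLG V G)
    (hnc : ∀ e ∈ G, ∀ f ∈ G, e ≠ f → ¬ Cross e f) : G.card ≤ 4 * V.card := by
  classical
  set G₁ := G.filter fun e => ∃ g ∈ G, g.1 = e.1 ∧ slope g < slope e with hG₁
  set G₀ := G.filter fun e => ¬ ∃ g ∈ G, g.1 = e.1 ∧ slope g < slope e with hG₀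
  have hsplit : G.card = G₁.card + G₀.card := (Finset.card_filter_add_card_filter_not _).symm
  have h0 : G₀.card ≤ V.card := by
    refine Finset.card_le_card_of_injOn (fun e => e.1) ?_ ?_
    · intro e he
      rw [hG₀, Finset.coe_filter] at he
      exact h.left e he.1
    · intro e he f hf hef
      rw [hG₀, Finset.coe_filter] at he hf
      by_contra hne
      rcases lt_trichotomy (slope e) (slope f) with hs | hs | hs
      · exact hf.2 ⟨e, he.1, hef, hs⟩
      · exact hnc e he.1 f hf.1 hne (cross_of_slope_eq h he.1 hf.1 hef hs)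
      · exact he.2 ⟨f, hf.1, hef.symm, hs⟩
  have h1 : G₁.card ≤ 3 * V.card := by
    have hd : ∀ e ∈ G₁, ∃ f p, Dat V G e f p := by
      intro e he
      rw [hG₁, Finset.mem_filter] at he
      exact exists_dat h he.1 he.2
    choose! F Q hFQ using hd
    let typ : Pt × Pt → Fin 3 := fun e =>
      if (Q e).2 = ht e (Q e).1 then 0 else if (Q e).2 = ht (F e) (Q e).1 then 1 else 2
    have hc : G₁.card ≤ (V ×ˢ (Finset.univ : Finset (Fin 3))).card := by
      refine Finset.card_le_card_of_injOn (fun e => (Q e, typ e)) ?_ ?_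
      · intro e he
        simp only [Finset.coe_product, Set.mem_prod, Finset.mem_coe, Finset.mem_univ, and_true]
        exact (hFQ e he).pV
      · intro e he f hf hef
        simp only [Prod.mk.injEq] at hef
        obtain ⟨hQ, hty⟩ := hef
        have he' : e ∈ G := (Finset.mem_filter.1 he).1
        have hf' : f ∈ G := (Finset.mem_filter.1 hf).1
        have de := hFQ e he
        have df := hFQ f hf
        have hle1 := de.ht_lt
        have hlf1 := df.ht_lt
        rw [← hQ] at df hlf1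
        have key : ((Q e).2 = ht e (Q e).1 ↔ (Q e).2 = ht f (Q e).1) ∧
            ((Q e).2 = ht (F e) (Q e).1 ↔ (Q e).2 = ht (F f) (Q e).1) := by
          simp only [typ, ← hQ] at hty
          by_cases c1 : (Q e).2 = ht e (Q e).1
          · rw [if_pos c1] at hty
            by_cases c2 : (Q e).2 = ht f (Q e).1
            · refine ⟨⟨fun _ => c2, fun _ => c1⟩, ⟨fun c => ?_, fun c => ?_⟩⟩
              · linarith
              · linarith
            · rw [if_neg c2] at hty
              split_ifs at hty <;> simp at hty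
          · rw [if_neg c1] at hty
            by_cases c2 : (Q e).2 = ht f (Q e).1
            · rw [if_pos c2] at hty
              split_ifs at hty <;> simp at hty
            · rw [if_neg c2] at hty
              refine ⟨⟨fun c => absurd c c1, fun c => absurd c c2⟩, ?_⟩
              by_cases c3 : (Q e).2 = ht (F e) (Q e).1
              · by_cases c4 : (Q e).2 = ht (F f) (Q e).1
                · exact ⟨fun _ => c4, fun _ => c3⟩
                · rw [if_pos c3, if_neg c4] at hty
                  simp at hty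
              · by_cases c4 : (Q e).2 = ht (F f) (Q e).1
                · rw [if_neg c3, if_pos c4] at hty
                  simp at hty
                · exact ⟨fun c => absurd c c3, fun c => absurd c c4⟩
        rcases le_total e.1.1 f.1.1 with hle | hle
        · exact dat_unique h hnc he' hf' de df hle key.1 key.2
        · exact (dat_unique h hnc hf' he' df de hle key.1.symm key.2.symm).symm
    rw [Finset.card_product, Finset.card_univ, Fintype.card_fin] at hc
    omega
  omega

end Pool.Agent.H69.ST
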