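import Mathlib
import Pool.Agent.H69.ST.NonCrossing

/-!
The crossing lemma for straight-line graphs.
-/

namespace Pool.Agent.H69.ST

open Classical in
/-- ordered pairs of distinct crossing edges -/
noncomputable def Xs (G : Finset (Pt × Pt)) : Finset ((Pt × Pt) × (Pt × Pt)) :=
  (G ×ˢ G).filter fun q => q.1 ≠ q.2 ∧ Cross q.1 q.2

lemma mem_Xs {G : Finset (Pt × Pt)} {q : (Pt × Pt) × (Pt × Pt)} :
    q ∈ Xs G ↔ (q.1 ∈ G ∧ q.2 ∈ G) ∧ q.1 ≠ q.2 ∧ Cross q.1 q.2 := by
  classical
  rw [Xs, Finset.mem_filter, Finset.mem_product]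

lemma SLG.mono {V : Finset Pt} {G G' : Finset (Pt × Pt)} (h : SLG V G) (hG : G' ⊆ G) :
    SLG V G' :=
  ⟨h.inj, fun e he => h.left e (hG he), fun e he => h.right e (hG he),
    fun e he => h.lt e (hG he), fun e he => h.vert e (hG he)⟩

/-- the number of edges is at most `4 n` plus the number of crossings -/
lemma card_le_add_crossings {V : Finset Pt} {G : Finset (Pt × Pt)} (h : SLG V G) :
    G.card ≤ 4 * V.card + (Xs G).card := by
  classical
  set G₁ := G.filter fun e => ∃ f ∈ G, e ≠ f ∧ Cross e f with hG₁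
  set G₀ := G.filter fun e => ¬ ∃ f ∈ G, e ≠ f ∧ Cross e f with hG₀
  have hsplit : G.card = G₁.card + G₀.card := (Finset.card_filter_add_card_filter_not _).symm
  have h0 : G₀.card ≤ 4 * V.card := by
    refine card_le_of_noncrossing (h.mono (Finset.filter_subset _ _)) ?_
    intro e he f hf hne hc
    rw [hG₀, Finset.mem_filter] at he hf
    exact he.2 ⟨f, hf.1, hne, hc⟩
  have h1 : G₁.card ≤ (Xs G).card := by
    have hd : ∀ e ∈ G₁, ∃ f, f ∈ G ∧ e ≠ f ∧ Cross e f := by
      intro e he
      rw [hG₁, Finset.mem_filter] at he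
      exact he.2
    choose! F hF using hd
    refine Finset.card_le_card_of_injOn (fun e => (e, F e)) ?_ ?_
    · intro e he
      have h2 := hF e he
      have he' : e ∈ G := (Finset.mem_filter.1 he).1
      exact Finset.mem_coe.2 (mem_Xs.2 ⟨⟨he', h2.1⟩, h2.2.1, h2.2.2⟩)
    · intro e _ f _ hef
      exact (Prod.mk.inj hef).1
  omega

/-- number of colourings which are `0` on a given set of points -/
lemma card_colorings (V : Finset Pt) (t : ℕ) [NeZero t] (S : Finset Pt) (hS : S ⊆ V) :
    (Finset.univ.filter fun c : V → Fin t => ∀ v : V, (v : Pt) ∈ S → c v = 0).card * t ^ S.card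
      = t ^ V.card := by
  classical
  have h1 : (Finset.univ.filter fun c : V → Fin t => ∀ v : V, (v : Pt) ∈ S → c v = 0) =
      Fintype.piFinset fun v : V => if (v : Pt) ∈ S then ({0} : Finset (Fin t)) else Finset.univ := by
    ext c
    simp only [Finset.mem_filter, Finset.mem_univ, true_and, Fintype.mem_piFinset]
    refine forall_congr' fun v => ?_
    by_cases hv : (v : Pt) ∈ S
    · simp [hv]
    · simp [hv]
  rw [h1, Fintype.card_piFinset]
  have h2 : ∀ v : V, (if (v : Pt) ∈ S then ({0} : Finset (Fin t)) else Finset.univ).card =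
      if (v : Pt) ∈ S then 1 else t := by
    intro v
    split_ifs <;> simp
  simp_rw [h2]
  rw [Finset.prod_coe_sort V (fun v => if v ∈ S then 1 else t), Finset.prod_ite,
    Finset.prod_const_one, one_mul, Finset.prod_const, ← pow_add]
  congr 1
  have h3 : V.filter (fun v => v ∉ S) = V \ S := by
    ext v; simp
  rw [h3, Finset.card_sdiff_of_subset hS]
  have := Finset.card_le_card hS
  omega

/-- the four end points of two crossing edges are distinct -/
lemma endpoints_distinct {V : Finset Pt} {G : Finset (Pt × Pt)} (h : SLG V G)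
    (hsl : ∀ e ∈ G, ∀ f ∈ G, e ≠ f → Cross e f → slope e ≠ slope f) {e f : Pt × Pt}
    (he : e ∈ G) (hf : f ∈ G) (hne : e ≠ f) (hc : Cross e f) :
    ({e.1, e.2, f.1, f.2} : Finset Pt).card = 4 := by
  classical
  have hs := hsl e he f hf hne hc
  obtain ⟨x, h1, h2, h3, h4, h5⟩ := hc
  have hlt := h.lt e he
  have hltf := h.lt f hf
  have d1 : e.1 ≠ e.2 := fun h' => by rw [h'] at hlt; exact lt_irrefl _ hlt
  have d2 : f.1 ≠ f.2 := fun h' => by rw [h'] at hltf; exact lt_irrefl _ hltf
  have d3 : e.1 ≠ f.1 := by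
    intro h'
    apply hs
    have h6 : e.1.2 + (x - e.1.1) * slope e = e.1.2 + (x - e.1.1) * slope f := by
      have := h5
      simp only [ht, ← h'] at this
      exact this
    have h7 : (x - e.1.1) * slope e = (x - e.1.1) * slope f := by linarith
    exact mul_left_cancel₀ (by linarith) h7
  have d4 : e.2 ≠ f.2 := by
    intro h'
    apply hs
    have e1 : ht e x = e.2.2 + (x - e.2.1) * slope e := by
      have := ht_right hlt
      simp only [ht] at this ⊢
      linarith
    have e2 : ht f x = f.2.2 + (x - f.2.1) * slope f := by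
      have := ht_right hltf
      simp only [ht] at this ⊢
      linarith
    rw [e1, e2, ← h'] at h5
    have h7 : (x - e.2.1) * slope e = (x - e.2.1) * slope f := by linarith
    exact mul_left_cancel₀ (by linarith) h7
  have d5 : e.1 ≠ f.2 := fun h' => by rw [h'] at h1; linarith
  have d6 : e.2 ≠ f.1 := fun h' => by rw [h'] at h3; linarith
  rw [Finset.card_insert_of_notMem (by simp [d1, d3, d5]),
    Finset.card_insert_of_notMem (by simp [d4, d6]),
    Finset.card_insert_of_notMem (by simp [d2]), Finset.card_singleton]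

/-- The sampled crossing inequality. -/
theorem crossing_sampled {V : Finset Pt} {G : Finset (Pt × Pt)} (h : SLG V G)
    (hsl : ∀ e ∈ G, ∀ f ∈ G, e ≠ f → Cross e f → slope e ≠ slope f) {t : ℕ} (ht : 1 ≤ t) :
    G.card * t ^ 2 ≤ 4 * V.card * t ^ 3 + (Xs G).card := by
  classical
  have : NeZero t := ⟨by omega⟩
  let Ω := V → Fin t
  -- for every colouring the basic inequality
  let Z : Finset Pt → Finset Ω := fun S =>
    Finset.univ.filter fun c : Ω => ∀ v : V, (v : Pt) ∈ S → c v = 0
  have hZ : ∀ S, S ⊆ V → (Z S).card * t ^ S.card = t ^ V.card := fun S hS =>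
    card_colorings V t S hS
  have hbasic : ∀ c : Ω, (G.filter fun e => c ∈ Z {e.1, e.2}).card ≤
      4 * (V.filter fun v => c ∈ Z {v}).card +
        ((Xs G).filter fun q => c ∈ Z {q.1.1, q.1.2, q.2.1, q.2.2}).card := by
    intro c
    set V' := V.filter fun v => c ∈ Z {v} with hV'
    set G' := G.filter fun e => c ∈ Z {e.1, e.2} with hG'
    have hslg : SLG V' G' := by
      refine ⟨fun p hp q hq => h.inj p (Finset.mem_filter.1 hp).1 q (Finset.mem_filter.1 hq).1,
        ?_, ?_, ?_, ?_⟩
      · intro e he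
        obtain ⟨he1, he2⟩ := Finset.mem_filter.1 he
        refine Finset.mem_filter.2 ⟨h.left e he1, ?_⟩
        simp only [Z, Finset.mem_filter, Finset.mem_univ, true_and] at he2 ⊢
        intro v hv
        exact he2 v (by simp only [Finset.mem_singleton] at hv; simp [hv])
      · intro e he
        obtain ⟨he1, he2⟩ := Finset.mem_filter.1 he
        refine Finset.mem_filter.2 ⟨h.right e he1, ?_⟩
        simp only [Z, Finset.mem_filter, Finset.mem_univ, true_and] at he2 ⊢
        intro v hv
        exact he2 v (by simp only [Finset.mem_singleton] at hv; simp [hv])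
      · intro e he
        exact h.lt e (Finset.mem_filter.1 he).1
      · intro e he p hp
        exact h.vert e (Finset.mem_filter.1 he).1 p (Finset.mem_filter.1 hp).1
    refine (card_le_add_crossings hslg).trans ?_
    gcongr
    intro q hq
    rw [mem_Xs] at hq
    obtain ⟨⟨h1, h2⟩, h3, h4⟩ := hq
    obtain ⟨h1a, h1b⟩ := Finset.mem_filter.1 h1
    obtain ⟨h2a, h2b⟩ := Finset.mem_filter.1 h2
    refine Finset.mem_filter.2 ⟨mem_Xs.2 ⟨⟨h1a, h2a⟩, h3, h4⟩, ?_⟩
    simp only [Z, Finset.mem_filter, Finset.mem_univ, true_and, Finset.mem_insert,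
      Finset.mem_singleton] at h1b h2b ⊢
    rintro v (hv | hv | hv | hv)
    · exact h1b v (Or.inl hv)
    · exact h1b v (Or.inr hv)
    · exact h2b v (Or.inl hv)
    · exact h2b v (Or.inr hv)
  -- sum over all colourings
  have hsum := Finset.sum_le_sum fun c (_ : c ∈ (Finset.univ : Finset Ω)) => hbasic c
  rw [Finset.sum_add_distrib, ← Finset.mul_sum] at hsum
  have swapG : ∑ c : Ω, (G.filter fun e => c ∈ Z {e.1, e.2}).card =
      ∑ e ∈ G, (Z {e.1, e.2}).card := by
    simp_rw [Finset.card_filter]
    rw [Finset.sum_comm]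
    refine Finset.sum_congr rfl fun e _ => ?_
    rw [← Finset.card_filter]
    congr 1
    ext c
    simp
  have swapV : ∑ c : Ω, (V.filter fun v => c ∈ Z {v}).card = ∑ v ∈ V, (Z {v}).card := by
    simp_rw [Finset.card_filter]
    rw [Finset.sum_comm]
    refine Finset.sum_congr rfl fun e _ => ?_
    rw [← Finset.card_filter]
    congr 1
    ext c
    simp
  have swapX : ∑ c : Ω, ((Xs G).filter fun q => c ∈ Z {q.1.1, q.1.2, q.2.1, q.2.2}).card =
      ∑ q ∈ Xs G, (Z {q.1.1, q.1.2, q.2.1, q.2.2}).card := by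
    simp_rw [Finset.card_filter]
    rw [Finset.sum_comm]
    refine Finset.sum_congr rfl fun e _ => ?_
    rw [← Finset.card_filter]
    congr 1
    ext c
    simp
  rw [swapG, swapV, swapX] at hsum
  -- evaluate
  have eG : (∑ e ∈ G, (Z {e.1, e.2}).card) * t ^ 2 = G.card * t ^ V.card := by
    rw [Finset.sum_mul, ← smul_eq_mul G.card, ← Finset.sum_const]
    refine Finset.sum_congr rfl fun e he => ?_
    have hne : e.1 ≠ e.2 := fun h' => by
      have := h.lt e he
      rw [h'] at this
      exact lt_irrefl _ this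
    have := hZ {e.1, e.2} (by
      intro v hv
      simp only [Finset.mem_insert, Finset.mem_singleton] at hv
      rcases hv with rfl | rfl
      · exact h.left e he
      · exact h.right e he)
    rwa [Finset.card_pair hne] at this
  have eV : (∑ v ∈ V, (Z {v}).card) * t = V.card * t ^ V.card := by
    rw [Finset.sum_mul, ← smul_eq_mul V.card, ← Finset.sum_const]
    refine Finset.sum_congr rfl fun v hv => ?_
    have := hZ {v} (by simpa using hv)
    rwa [Finset.card_singleton, pow_one] at this
  have eX : (∑ q ∈ Xs G, (Z {q.1.1, q.1.2, q.2.1, q.2.2}).card) * t ^ 4 =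
      (Xs G).card * t ^ V.card := by
    rw [Finset.sum_mul, ← smul_eq_mul (Xs G).card, ← Finset.sum_const]
    refine Finset.sum_congr rfl fun q hq => ?_
    rw [mem_Xs] at hq
    obtain ⟨⟨h1, h2⟩, h3, h4⟩ := hq
    have := hZ {q.1.1, q.1.2, q.2.1, q.2.2} (by
      intro v hv
      simp only [Finset.mem_insert, Finset.mem_singleton] at hv
      rcases hv with rfl | rfl | rfl | rfl
      · exact h.left _ h1
      · exact h.right _ h1
      · exact h.left _ h2
      · exact h.right _ h2)
    rwa [endpoints_distinct h hsl h1 h2 h3 h4] at this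
  have hN : 0 < t ^ V.card := pow_pos (by omega) _
  refine Nat.le_of_mul_le_mul_right ?_ hN
  calc G.card * t ^ 2 * t ^ V.card = (∑ e ∈ G, (Z {e.1, e.2}).card) * t ^ 4 := by
        rw [mul_right_comm, ← eG]; ring
    _ ≤ (4 * ∑ v ∈ V, (Z {v}).card + ∑ q ∈ Xs G, (Z {q.1.1, q.1.2, q.2.1, q.2.2}).card) * t ^ 4 :=
        Nat.mul_le_mul_right _ hsum
    _ = 4 * t ^ 3 * ((∑ v ∈ V, (Z {v}).card) * t) +
        (∑ q ∈ Xs G, (Z {q.1.1, q.1.2, q.2.1, q.2.2}).card) * t ^ 4 := by ring
    _ = 4 * t ^ 3 * (V.card * t ^ V.card) + (Xs G).card * t ^ V.card := by rw [eV, eX]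
    _ = (4 * V.card * t ^ 3 + (Xs G).card) * t ^ V.card := by ring

end Pool.Agent.H69.ST
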