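import Mathlib
import Pool.Agent.H69.ST.Crossing

/-!
The Szemerédi–Trotter bound for the number of rich lines, for points with distinct first
coordinates and non-vertical lines `y = a x + b`.
-/

namespace Pool.Agent.H69.ST

/-- points of `P` on the line `y = ℓ.1 x + ℓ.2` -/
noncomputable def onLine (P : Finset Pt) (ℓ : ℝ × ℝ) : Finset Pt := by
  classical exact P.filter fun p => p.2 = ℓ.1 * p.1 + ℓ.2

lemma mem_onLine {P : Finset Pt} {ℓ : ℝ × ℝ} {p : Pt} :
    p ∈ onLine P ℓ ↔ p ∈ P ∧ p.2 = ℓ.1 * p.1 + ℓ.2 := by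
  classical
  simp [onLine]

/-- consecutive pairs of points on a line -/
noncomputable def lineEdges (P : Finset Pt) (ℓ : ℝ × ℝ) : Finset (Pt × Pt) := by
  classical exact (onLine P ℓ ×ˢ onLine P ℓ).filter fun e =>
    e.1.1 < e.2.1 ∧ ∀ q ∈ onLine P ℓ, ¬ (e.1.1 < q.1 ∧ q.1 < e.2.1)

lemma mem_lineEdges {P : Finset Pt} {ℓ : ℝ × ℝ} {e : Pt × Pt} :
    e ∈ lineEdges P ℓ ↔ (e.1 ∈ onLine P ℓ ∧ e.2 ∈ onLine P ℓ) ∧
      e.1.1 < e.2.1 ∧ ∀ q ∈ onLine P ℓ, ¬ (e.1.1 < q.1 ∧ q.1 < e.2.1) := by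
  classical
  simp only [lineEdges, Finset.mem_filter, Finset.mem_product]

lemma slope_of_mem {P : Finset Pt} {ℓ : ℝ × ℝ} {e : Pt × Pt} (he : e ∈ lineEdges P ℓ) :
    slope e = ℓ.1 := by
  obtain ⟨⟨h1, h2⟩, h3, -⟩ := mem_lineEdges.1 he
  have e1 := (mem_onLine.1 h1).2
  have e2 := (mem_onLine.1 h2).2
  rw [slope, e1, e2]
  have : e.2.1 - e.1.1 ≠ 0 := by linarith
  field_simp
  ring

lemma ht_of_mem {P : Finset Pt} {ℓ : ℝ × ℝ} {e : Pt × Pt} (he : e ∈ lineEdges P ℓ) (x : ℝ) :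
    ht e x = ℓ.1 * x + ℓ.2 := by
  have hs := slope_of_mem he
  obtain ⟨⟨h1, h2⟩, h3, -⟩ := mem_lineEdges.1 he
  have e1 := (mem_onLine.1 h1).2
  rw [ht, hs, e1]
  ring

/-- two consecutive pairs on the same line with a common interior abscissa are equal -/
lemma lineEdges_unique {P : Finset Pt} (hx : ∀ p ∈ P, ∀ q ∈ P, p.1 = q.1 → p = q)
    {ℓ : ℝ × ℝ} {e f : Pt × Pt} (he : e ∈ lineEdges P ℓ) (hf : f ∈ lineEdges P ℓ) {x : ℝ}
    (h1 : e.1.1 < x) (h2 : f.1.1 < x) (h3 : x < e.2.1) (h4 : x < f.2.1) : e = f := by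
  obtain ⟨⟨a1, a2⟩, a3, a4⟩ := mem_lineEdges.1 he
  obtain ⟨⟨b1, b2⟩, b3, b4⟩ := mem_lineEdges.1 hf
  have c1 : e.1.1 = f.1.1 := by
    rcases lt_trichotomy e.1.1 f.1.1 with h | h | h
    · exact absurd ⟨h, by linarith⟩ (a4 f.1 b1)
    · exact h
    · exact absurd ⟨h, by linarith⟩ (b4 e.1 a1)
  have c2 : e.2.1 = f.2.1 := by
    rcases lt_trichotomy e.2.1 f.2.1 with h | h | h
    · exact absurd ⟨by linarith, h⟩ (b4 e.2 a2)
    · exact h
    · exact absurd ⟨by linarith, h⟩ (a4 f.2 b2)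
  refine Prod.ext (hx _ (mem_onLine.1 a1).1 _ (mem_onLine.1 b1).1 c1)
    (hx _ (mem_onLine.1 a2).1 _ (mem_onLine.1 b2).1 c2)

lemma card_lineEdges {P : Finset Pt} (hx : ∀ p ∈ P, ∀ q ∈ P, p.1 = q.1 → p = q) (ℓ : ℝ × ℝ) :
    (onLine P ℓ).card ≤ (lineEdges P ℓ).card + 1 := by
  classical
  set Q := onLine P ℓ with hQ
  set Q₁ := Q.filter fun b => ∃ a ∈ Q, a.1 < b.1 with hQ₁
  set Q₀ := Q.filter fun b => ¬ ∃ a ∈ Q, a.1 < b.1 with hQ₀
  have hsplit : Q.card = Q₁.card + Q₀.card := (Finset.card_filter_add_card_filter_not _).symm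
  have h0 : Q₀.card ≤ 1 := by
    rw [Finset.card_le_one]
    intro a ha b hb
    rw [hQ₀, Finset.mem_filter] at ha hb
    push Not at ha hb
    refine hx _ (mem_onLine.1 ha.1).1 _ (mem_onLine.1 hb.1).1 ?_
    exact le_antisymm (hb.2 a ha.1 |> fun h => by linarith [ha.2 b hb.1]) (by
      linarith [hb.2 a ha.1, ha.2 b hb.1])
  have h1 : Q₁.card ≤ (lineEdges P ℓ).card := by
    have hd : ∀ b ∈ Q₁, ∃ a, a ∈ Q ∧ a.1 < b.1 ∧ ∀ q ∈ Q, ¬ (a.1 < q.1 ∧ q.1 < b.1) := by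
      intro b hb
      rw [hQ₁, Finset.mem_filter] at hb
      obtain ⟨hbQ, a0, ha0, hab0⟩ := hb
      obtain ⟨a, ha, hamax⟩ := Finset.exists_max_image (Q.filter fun a => a.1 < b.1)
        (fun a => a.1) ⟨a0, by simp [ha0, hab0]⟩
      rw [Finset.mem_filter] at ha
      refine ⟨a, ha.1, ha.2, ?_⟩
      rintro q hq ⟨hq1, hq2⟩
      have := hamax q (by simp [hq, hq2])
      linarith
    choose! A hA using hd
    refine Finset.card_le_card_of_injOn (fun b => (A b, b)) ?_ ?_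
    · intro b hb
      have h2 := hA b hb
      have hbQ : b ∈ Q := (Finset.mem_filter.1 hb).1
      exact Finset.mem_coe.2 (mem_lineEdges.2 ⟨⟨h2.1, hbQ⟩, h2.2.1, h2.2.2⟩)
    · intro b _ b' _ hbb
      exact (Prod.mk.inj hbb).2
  omega

/-- The graph of consecutive points. -/
noncomputable def lineGraph (P : Finset Pt) (L : Finset (ℝ × ℝ)) : Finset (Pt × Pt) := by
  classical exact L.biUnion (lineEdges P)

lemma mem_lineGraph {P : Finset Pt} {L : Finset (ℝ × ℝ)} {e : Pt × Pt} :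
    e ∈ lineGraph P L ↔ ∃ ℓ ∈ L, e ∈ lineEdges P ℓ := by
  classical
  simp [lineGraph]

/-- Szemerédi–Trotter for rich lines, in coordinates. -/
theorem rich_lines (P : Finset Pt) (hx : ∀ p ∈ P, ∀ q ∈ P, p.1 = q.1 → p = q)
    (L : Finset (ℝ × ℝ)) (k : ℕ) (hk : 2 ≤ k) (hL : ∀ ℓ ∈ L, k ≤ (onLine P ℓ).card) :
    L.card * k ≤ 16 * P.card ∨ L.card * k ^ 3 ≤ 4096 * P.card ^ 2 := by
  classical
  set G := lineGraph P L with hG
  have hslg : SLG P G := by
    refine ⟨hx, ?_, ?_, ?_, ?_⟩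
    · intro e he
      obtain ⟨ℓ, -, h⟩ := mem_lineGraph.1 he
      exact (mem_onLine.1 (mem_lineEdges.1 h).1.1).1
    · intro e he
      obtain ⟨ℓ, -, h⟩ := mem_lineGraph.1 he
      exact (mem_onLine.1 (mem_lineEdges.1 h).1.2).1
    · intro e he
      obtain ⟨ℓ, -, h⟩ := mem_lineGraph.1 he
      exact (mem_lineEdges.1 h).2.1
    · intro e he p hp h1 h2 h3
      obtain ⟨ℓ, -, h⟩ := mem_lineGraph.1 he
      rw [ht_of_mem h] at h3
      exact (mem_lineEdges.1 h).2.2 p (mem_onLine.2 ⟨hp, h3⟩) ⟨h1, h2⟩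
  -- crossing edges lie on lines of different slopes
  have hsl' : ∀ e ∈ G, ∀ f ∈ G, e ≠ f → Cross e f → slope e ≠ slope f := by
    intro e he f hf hne hc hs
    obtain ⟨ℓ, -, h⟩ := mem_lineGraph.1 he
    obtain ⟨ℓ', -, h'⟩ := mem_lineGraph.1 hf
    obtain ⟨x, h1, h2, h3, h4, h5⟩ := hc
    rw [ht_of_mem h, ht_of_mem h'] at h5
    rw [slope_of_mem h, slope_of_mem h'] at hs
    have hℓ : ℓ = ℓ' := by
      refine Prod.ext hs ?_
      rw [hs] at h5
      linarith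
    subst hℓ
    exact hne (lineEdges_unique hx h h' h1 h2 h3 h4)
  -- number of edges
  have hcard : ∑ ℓ ∈ L, (lineEdges P ℓ).card = G.card := by
    rw [hG, lineGraph, Finset.card_biUnion]
    intro ℓ hℓ ℓ' hℓ' hne
    rw [Function.onFun, Finset.disjoint_left]
    intro e he he'
    apply hne
    have h1 := slope_of_mem he
    have h2 := slope_of_mem he'
    have h3 := ht_of_mem he 0
    have h4 := ht_of_mem he' 0
    refine Prod.ext (by rw [← h1, ← h2]) ?_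
    rw [h3] at h4
    linarith
  have hG2 : L.card * k ≤ 2 * G.card := by
    rw [← hcard, Finset.mul_sum, ← smul_eq_mul, ← Finset.sum_const]
    refine Finset.sum_le_sum fun ℓ hℓ => ?_
    have h1 := hL ℓ hℓ
    have h2 := card_lineEdges hx ℓ
    omega
  -- number of crossings
  have hX : (Xs G).card ≤ L.card ^ 2 := by
    rw [sq, ← Finset.card_product]
    have hd : ∀ e ∈ G, ∃ ℓ ∈ L, e ∈ lineEdges P ℓ := fun e he => mem_lineGraph.1 he
    choose! ln hlnL hln using hd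
    refine Finset.card_le_card_of_injOn (fun q => (ln q.1, ln q.2)) ?_ ?_
    · intro q hq
      obtain ⟨⟨h1, h2⟩, -, -⟩ := mem_Xs.1 hq
      simp only [Finset.coe_product, Set.mem_prod, Finset.mem_coe]
      exact ⟨hlnL _ h1, hlnL _ h2⟩
    · intro q hq r hr hqr
      obtain ⟨⟨h1, h2⟩, h3, h4⟩ := mem_Xs.1 hq
      obtain ⟨⟨g1, g2⟩, g3, g4⟩ := mem_Xs.1 hr
      obtain ⟨i1, i2⟩ := Prod.mk.inj hqr
      have hs := hsl' _ h1 _ h2 h3 h4
      obtain ⟨x, a1, a2, a3, a4, a5⟩ := h4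
      obtain ⟨y, b1, b2, b3, b4, b5⟩ := g4
      rw [slope_of_mem (hln _ h1), slope_of_mem (hln _ h2)] at hs
      rw [ht_of_mem (hln _ h1), ht_of_mem (hln _ h2)] at a5
      rw [ht_of_mem (hln _ g1), ht_of_mem (hln _ g2), ← i1, ← i2] at b5
      have hxy : x = y := by
        have h6 : ((ln q.1).1 - (ln q.2).1) * (x - y) = 0 := by linarith
        rcases mul_eq_zero.1 h6 with h | h
        · exact absurd (by linarith) hs
        · linarith
      subst hxy
      refine Prod.ext ?_ ?_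
      · refine lineEdges_unique hx (hln _ h1) ?_ a1 b1 a3 b3
        rw [i1]
        exact hln _ g1
      · refine lineEdges_unique hx (hln _ h2) ?_ a2 b2 a4 b4
        rw [i2]
        exact hln _ g2
  -- conclusion
  rcases le_or_gt (L.card * k) (16 * P.card) with hcase | hcase
  · exact Or.inl hcase
  right
  set n := P.card with hn
  set l := L.card with hl
  have hlpos : 0 < l := by
    rcases Nat.eq_zero_or_pos l with h | h
    · rw [h] at hcase; simp at hcase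
    · exact h
  have hnpos : 0 < n := by
    obtain ⟨ℓ, hℓ⟩ := Finset.card_pos.1 hlpos
    have h1 := hL ℓ hℓ
    have h2 : (onLine P ℓ).card ≤ P.card := Finset.card_le_card fun p hp => (mem_onLine.1 hp).1
    omega
  set t := l * k / (16 * n) with ht
  have ht1 : 1 ≤ t := by
    rw [ht, Nat.le_div_iff_mul_le (by omega)]
    omega
  have ht2 : t * (16 * n) ≤ l * k := Nat.div_mul_le_self _ _
  have ht3 : l * k < (t + 1) * (16 * n) := by
    have := Nat.lt_div_mul_add (a := l * k) (b := 16 * n) (by omega)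
    rw [← ht] at this
    linarith
  have hs := crossing_sampled hslg hsl' ht1
  rw [← hn] at hs
  have h4 : 8 * n * t ≤ G.card := by
    have : 2 * (8 * n * t) ≤ 2 * G.card := by
      calc 2 * (8 * n * t) = t * (16 * n) := by ring
        _ ≤ l * k := ht2
        _ ≤ 2 * G.card := hG2
    omega
  have h5 : 8 * n * t ^ 3 ≤ G.card * t ^ 2 := by
    calc 8 * n * t ^ 3 = (8 * n * t) * t ^ 2 := by ring
      _ ≤ G.card * t ^ 2 := Nat.mul_le_mul_right _ h4
  have h6 : G.card * t ^ 2 ≤ 2 * l ^ 2 := by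
    have : 2 * (G.card * t ^ 2) ≤ 8 * n * t ^ 3 + 2 * l ^ 2 := by
      calc 2 * (G.card * t ^ 2) ≤ 2 * (4 * n * t ^ 3 + (Xs G).card) := Nat.mul_le_mul_left _ hs
        _ ≤ 2 * (4 * n * t ^ 3 + l ^ 2) := by gcongr
        _ = _ := by ring
    omega
  have h7 : k * t ^ 2 ≤ 4 * l := by
    have : l * (k * t ^ 2) ≤ l * (4 * l) := by
      calc l * (k * t ^ 2) = (l * k) * t ^ 2 := by ring
        _ ≤ (2 * G.card) * t ^ 2 := Nat.mul_le_mul_right _ hG2
        _ = 2 * (G.card * t ^ 2) := by ring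
        _ ≤ 2 * (2 * l ^ 2) := Nat.mul_le_mul_left _ h6
        _ = l * (4 * l) := by ring
    exact Nat.le_of_mul_le_mul_left this hlpos
  have h8 : l * k ≤ 32 * n * t := by
    have : (t + 1) * (16 * n) ≤ 32 * n * t := by nlinarith
    omega
  have h9 : l * (l * k ^ 3) ≤ l * (4096 * n ^ 2) := by
    calc l * (l * k ^ 3) = (l * k) ^ 2 * k := by ring
      _ ≤ (32 * n * t) ^ 2 * k := by gcongr
      _ = 1024 * n ^ 2 * (k * t ^ 2) := by ring
      _ ≤ 1024 * n ^ 2 * (4 * l) := Nat.mul_le_mul_left _ h7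
      _ = l * (4096 * n ^ 2) := by ring
  exact Nat.le_of_mul_le_mul_left h9 hlpos

end Pool.Agent.H69.ST
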