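import Mathlib
import Pool.Agent.H69.ST.RichLines

/-!
The Szemerédi–Trotter bound for rich lines in the Euclidean plane.
-/

namespace Pool.Agent.H69.ST

abbrev Plane := EuclideanSpace ℝ (Fin 2)

/-- shear coordinates -/
noncomputable def shear (t : ℝ) (p : Plane) : Pt := (p 0 + t * p 1, p 1)

lemma shear_injective (t : ℝ) : Function.Injective (shear t) := by
  intro p q h
  obtain ⟨h1, h2⟩ := Prod.mk.inj h
  ext i
  fin_cases i
  · change p 0 = q 0
    rw [h2] at h1
    linarith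
  · exact h2

/-- a shear for which all points have distinct first coordinates -/
lemma exists_shear (P : Finset Plane) :
    ∃ t : ℝ, ∀ p ∈ P, ∀ q ∈ P, (shear t p).1 = (shear t q).1 → p = q := by
  classical
  set B : Finset ℝ := (P ×ˢ P).image fun x => -(x.1 0 - x.2 0) / (x.1 1 - x.2 1) with hB
  obtain ⟨t, ht⟩ := Infinite.exists_notMem_finset B
  refine ⟨t, fun p hp q hq h => ?_⟩
  have h1 : p 0 + t * p 1 = q 0 + t * q 1 := h
  by_cases h2 : p 1 = q 1
  · ext i
    fin_cases i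
    · change p 0 = q 0
      rw [h2] at h1
      linarith
    · exact h2
  · exfalso
    apply ht
    rw [hB, Finset.mem_image]
    refine ⟨(p, q), Finset.mem_product.2 ⟨hp, hq⟩, ?_⟩
    have h3 : p 1 - q 1 ≠ 0 := sub_ne_zero.2 h2
    simp only
    rw [div_eq_iff h3]
    linarith

/-- A collinear set with at least two points lies on a line `y = a x + b` in shear coordinates. -/
lemma exists_line {P : Finset Plane} {t : ℝ}
    (ht : ∀ p ∈ P, ∀ q ∈ P, (shear t p).1 = (shear t q).1 → p = q) {l : Finset Plane}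
    (hlP : l ⊆ P) (hl : Collinear ℝ (l : Set Plane)) (hcard : 2 ≤ l.card) :
    ∃ ℓ : ℝ × ℝ, ∀ p : Plane, (p ∈ l → (shear t p).2 = ℓ.1 * (shear t p).1 + ℓ.2) := by
  obtain ⟨p, hp, q, hq, hpq⟩ := Finset.one_lt_card.1 (by omega : 1 < l.card)
  obtain ⟨v, hv⟩ := (collinear_iff_of_mem (show p ∈ (l : Set Plane) from hp)).1 hl
  obtain ⟨r, hr⟩ := hv q hq
  set w := shear t v with hw
  have hadd : ∀ (r : ℝ) , shear t (r • v +ᵥ p) = ((shear t p).1 + r * w.1, (shear t p).2 + r * w.2) := by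
    intro r
    simp only [shear, hw, vadd_eq_add, PiLp.add_apply, PiLp.smul_apply, smul_eq_mul]
    refine Prod.ext ?_ ?_
    · simp only; ring
    · simp only; ring
  have hw0 : w.1 ≠ 0 := by
    intro h0
    apply hpq
    refine ht p (hlP hp) q (hlP hq) ?_
    rw [hr, hadd, h0, mul_zero, add_zero]
  refine ⟨(w.2 / w.1, (shear t p).2 - w.2 / w.1 * (shear t p).1), ?_⟩
  intro x hx
  obtain ⟨s, hs⟩ := hv x hx
  rw [hs, hadd]
  simp only
  field_simp
  ring

/-- Points on a common line in shear coordinates are collinear. -/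
lemma collinear_of_line {t : ℝ} {S : Set Plane} {ℓ : ℝ × ℝ}
    (h : ∀ p ∈ S, (shear t p).2 = ℓ.1 * (shear t p).1 + ℓ.2) : Collinear ℝ S := by
  rcases S.eq_empty_or_nonempty with rfl | ⟨p, hp⟩
  · exact collinear_empty ℝ _
  rw [collinear_iff_of_mem hp]
  refine ⟨WithLp.toLp 2 ![1 - t * ℓ.1, ℓ.1], fun q hq => ⟨(shear t q).1 - (shear t p).1, ?_⟩⟩
  have h1 := h p hp
  have h2 := h q hq
  simp only [shear] at h1 h2
  ext i
  fin_cases i
  · simp only [shear, vadd_eq_add, PiLp.add_apply, PiLp.smul_apply, smul_eq_mul]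
    simp
    linear_combination t * h1 - t * h2
  · simp only [shear, vadd_eq_add, PiLp.add_apply, PiLp.smul_apply, smul_eq_mul]
    simp
    linear_combination h2 - h1

/-- **Szemerédi–Trotter bound for rich lines.** `L` is a family of collinear subsets of `P`, no
two of them on a common line, each with at least `k ≥ 2` points. Then `|L| k ≤ 16 |P|` or
`|L| k^3 ≤ 4096 |P|^2`. -/
theorem szemeredi_trotter (P : Finset Plane) (L : Finset (Finset Plane)) (k : ℕ) (hk : 2 ≤ k)
    (hLP : ∀ l ∈ L, l ⊆ P) (hcol : ∀ l ∈ L, Collinear ℝ (l : Set Plane))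
    (hdis : ∀ l ∈ L, ∀ l' ∈ L, l ≠ l' → ¬ Collinear ℝ ((l : Set Plane) ∪ (l' : Set Plane)))
    (hcard : ∀ l ∈ L, k ≤ l.card) :
    L.card * k ≤ 16 * P.card ∨ L.card * k ^ 3 ≤ 4096 * P.card ^ 2 := by
  classical
  obtain ⟨t, ht⟩ := exists_shear P
  have hex : ∀ l ∈ L, ∃ ℓ : ℝ × ℝ, ∀ p : Plane,
      (p ∈ l → (shear t p).2 = ℓ.1 * (shear t p).1 + ℓ.2) := fun l hl =>
    exists_line ht (hLP l hl) (hcol l hl) (hk.trans (hcard l hl))
  choose! ln hln using hex
  set P' := P.image (shear t) with hP'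
  have hP'card : P'.card = P.card := Finset.card_image_of_injective _ (shear_injective t)
  have hx : ∀ p ∈ P', ∀ q ∈ P', p.1 = q.1 → p = q := by
    intro p hp q hq h
    obtain ⟨a, ha, rfl⟩ := Finset.mem_image.1 hp
    obtain ⟨b, hb, rfl⟩ := Finset.mem_image.1 hq
    rw [ht a ha b hb h]
  have hinj : Set.InjOn ln (L : Set (Finset Plane)) := by
    intro l hl l' hl' h
    by_contra hne
    apply hdis l hl l' hl' hne
    refine collinear_of_line (t := t) (ℓ := ln l) ?_
    rintro p (hp | hp)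
    · exact hln l hl p hp
    · rw [h]; exact hln l' hl' p hp
  have hLcard : (L.image ln).card = L.card := Finset.card_image_of_injOn hinj
  have h := rich_lines P' hx (L.image ln) k hk (by
    intro ℓ hℓ
    obtain ⟨l, hl, rfl⟩ := Finset.mem_image.1 hℓ
    refine (hcard l hl).trans ?_
    rw [← Finset.card_image_of_injective l (shear_injective t)]
    refine Finset.card_le_card ?_
    intro p hp
    obtain ⟨a, ha, rfl⟩ := Finset.mem_image.1 hp
    exact mem_onLine.2 ⟨Finset.mem_image_of_mem _ (hLP l hl ha), hln l hl a ha⟩)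
  rwa [hLcard, hP'card] at h

/-- for `k^2 ≤ |P|` the second alternative always holds -/
theorem szemeredi_trotter' (P : Finset Plane) (L : Finset (Finset Plane)) (k : ℕ) (hk : 2 ≤ k)
    (hkP : k ^ 2 ≤ P.card)
    (hLP : ∀ l ∈ L, l ⊆ P) (hcol : ∀ l ∈ L, Collinear ℝ (l : Set Plane))
    (hdis : ∀ l ∈ L, ∀ l' ∈ L, l ≠ l' → ¬ Collinear ℝ ((l : Set Plane) ∪ (l' : Set Plane)))
    (hcard : ∀ l ∈ L, k ≤ l.card) : L.card * k ^ 3 ≤ 4096 * P.card ^ 2 := by
  rcases szemeredi_trotter P L k hk hLP hcol hdis hcard with h | h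
  · calc L.card * k ^ 3 = (L.card * k) * k ^ 2 := by ring
      _ ≤ (16 * P.card) * P.card := by gcongr
      _ ≤ 4096 * P.card ^ 2 := by nlinarith [Nat.zero_le (P.card ^ 2)]
  · exact h

end Pool.Agent.H69.ST
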